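import Pool.Agent.Work.MP_73128c_co.Data

namespace Pool.Agent.Results.MP_73128c_co.ThreeAndFour

/-- For `k = 3` and `k = 4` there is a connected finite graph with exactly `k` isomorphism types
of cards whose automorphism group has more than `k` orbits on the vertices. -/
theorem result :
    ∀ k : ℕ, k = 3 ∨ k = 4 →
      ∃ (n : ℕ) (G : SimpleGraph (Fin n)), G.Connected ∧
        Nat.card (Quot (fun u v : Fin n =>
          Nonempty (G.induce ({u}ᶜ : Set (Fin n)) ≃g G.induce ({v}ᶜ : Set (Fin n))))) = k ∧
        k < Nat.card (MulAction.orbitRel.Quotient (G ≃g G) (Fin n)) := by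
  rintro k (rfl | rfl)
  · exact ⟨63, Pool.Agent.Work.MP_73128c_co.exThree⟩
  · exact ⟨14, Pool.Agent.Work.MP_73128c_co.exFour⟩

end Pool.Agent.Results.MP_73128c_co.ThreeAndFour
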